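import Pool.Agent.Helper16.BZ.Stmts
import Pool.Agent.Helper17.SO.Stmts
import Pool.Agent.Helper41.SO.BTP

set_option autoImplicit false

open Finset Filter MeasureTheory Topology
open scoped ComplexConjugate InnerProductSpace

namespace Pool.Agent.Helper16.BZ

open Pool.Agent.Helper16.MD (MS PB Am RW Rich)
open Pool.Agent.Helper17.SO (LL btp_mem btp_tot btp_sum)

/-- the sum of the reciprocals of the divisors -/
theorem ppb_div (m : ℕ) (hm : 1 ≤ m) :
    ∏ p ∈ m.primeFactors, (1 + 1 / (p : ℝ)) ≤ ∑ d ∈ m.divisors, 1 / (d : ℝ) := by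
  have hm0 : m ≠ 0 := by omega
  have hmr : (0 : ℝ) < m := by exact_mod_cast hm
  have h1 : ∑ d ∈ m.divisors, 1 / (d : ℝ) = (∑ d ∈ m.divisors, (d : ℝ)) / m := by
    rw [← Nat.sum_div_divisors m (fun d => 1 / (d : ℝ)), Finset.sum_div]
    refine Finset.sum_congr rfl fun d hd => ?_
    have hd1 : d ∣ m := Nat.dvd_of_mem_divisors hd
    have hd0 : (d : ℝ) ≠ 0 := by
      have := Nat.pos_of_mem_divisors hd
      positivity
    rw [Nat.cast_div hd1 hd0, one_div_div]
  rw [h1, le_div_iff₀ hmr]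
  have h2 : (m : ℝ) = ∏ p ∈ m.primeFactors, (p : ℝ) ^ (m.factorization p) := by
    have h := Nat.prod_factorization_pow_eq_self hm0
    unfold Finsupp.prod at h
    rw [Nat.support_factorization] at h
    calc (m : ℝ) = ((∏ p ∈ m.primeFactors, p ^ (m.factorization p) : ℕ) : ℝ) := by rw [h]
      _ = _ := by push_cast; rfl
  have h3 : (∑ d ∈ m.divisors, (d : ℝ)) =
      ∏ p ∈ m.primeFactors, ∑ k ∈ range (m.factorization p + 1), (p : ℝ) ^ k := by
    have h := Nat.sum_divisors hm0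
    have h' := congrArg (fun n : ℕ => (n : ℝ)) h
    push_cast at h'
    exact h'
  rw [h3]
  rw [h2]
  rw [← Finset.prod_mul_distrib]
  refine Finset.prod_le_prod (fun p _ => by positivity) fun p hp => ?_
  have hp0 : (0 : ℝ) < p := by exact_mod_cast (Nat.prime_of_mem_primeFactors hp).pos
  have hv : 1 ≤ m.factorization p :=
    (Nat.prime_of_mem_primeFactors hp).factorization_pos_of_dvd hm0
      (Nat.dvd_of_mem_primeFactors hp)
  obtain ⟨v, hv'⟩ : ∃ v, m.factorization p = v + 1 := ⟨m.factorization p - 1, by omega⟩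
  rw [hv', Finset.sum_range_succ, Finset.sum_range_succ]
  have h4 : (0 : ℝ) ≤ ∑ k ∈ range v, (p : ℝ) ^ k := Finset.sum_nonneg fun k _ => by positivity
  have h5 : (1 + 1 / (p : ℝ)) * (p : ℝ) ^ (v + 1) = (p : ℝ) ^ v + (p : ℝ) ^ (v + 1) := by
    rw [pow_succ]
    field_simp
    ring
  rw [h5]
  linarith

/-- the exponential of the sum over the prime factors -/
theorem ppb_exp (m : ℕ) (hm : 1 ≤ m) :
    Real.exp (∑ l ∈ m.primeFactors, 1 / (l : ℝ)) ≤
      Real.exp 1 * ∑ d ∈ m.divisors, 1 / (d : ℝ) := by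
  have h1 : ∀ l ∈ m.primeFactors,
      Real.exp (1 / (l : ℝ)) ≤ (1 + 1 / (l : ℝ)) * Real.exp (((l : ℝ) ^ 2)⁻¹) := by
    intro l hl
    have hl2 : (2 : ℝ) ≤ l := by exact_mod_cast (Nat.prime_of_mem_primeFactors hl).two_le
    obtain ⟨x, hx⟩ : ∃ x : ℝ, x = 1 / (l : ℝ) := ⟨_, rfl⟩
    have hx2 : ((l : ℝ) ^ 2)⁻¹ = x ^ 2 := by rw [hx, div_pow, one_pow, one_div]
    have hx0 : 0 ≤ x := by rw [hx]; positivity
    have hx1 : x ≤ 1 := by
      rw [hx, div_le_one (by linarith)]
      linarith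
    rw [← hx, hx2]
    have h2 : Real.exp x ≤ 1 + x + x ^ 2 := by
      have h := Real.abs_exp_sub_one_sub_id_le (x := x) (by rw [abs_of_nonneg hx0]; exact hx1)
      have h' := (abs_le.1 h).2
      linarith
    have h3 : 1 + x ^ 2 ≤ Real.exp (x ^ 2) := by
      have := Real.add_one_le_exp (x ^ 2)
      linarith
    calc Real.exp x ≤ 1 + x + x ^ 2 := h2
      _ ≤ (1 + x) * (1 + x ^ 2) := by nlinarith [mul_nonneg hx0 (sq_nonneg x)]
      _ ≤ _ := mul_le_mul_of_nonneg_left h3 (by linarith)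
  rw [Real.exp_sum]
  calc ∏ l ∈ m.primeFactors, Real.exp (1 / (l : ℝ)) ≤
      ∏ l ∈ m.primeFactors, ((1 + 1 / (l : ℝ)) * Real.exp (((l : ℝ) ^ 2)⁻¹)) :=
        Finset.prod_le_prod (fun l _ => (Real.exp_pos _).le) h1
    _ = (∏ l ∈ m.primeFactors, (1 + 1 / (l : ℝ))) *
        Real.exp (∑ l ∈ m.primeFactors, ((l : ℝ) ^ 2)⁻¹) := by
        rw [Finset.prod_mul_distrib, Real.exp_sum]
    _ ≤ (∑ d ∈ m.divisors, 1 / (d : ℝ)) * Real.exp 1 := by
        refine mul_le_mul (ppb_div m hm) (Real.exp_le_exp.2 ?_) (Real.exp_pos _).le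
          (Finset.sum_nonneg fun d _ => by positivity)
        have hsub : m.primeFactors ⊆ Ioc 1 m := by
          intro l hl
          rw [mem_Ioc]
          exact ⟨(Nat.prime_of_mem_primeFactors hl).one_lt, Nat.le_of_mem_primeFactors hl⟩
        calc ∑ l ∈ m.primeFactors, ((l : ℝ) ^ 2)⁻¹ ≤ ∑ l ∈ Ioc 1 m, ((l : ℝ) ^ 2)⁻¹ :=
              Finset.sum_le_sum_of_subset_of_nonneg hsub fun l _ _ => by positivity
          _ ≤ ((1 : ℕ) : ℝ)⁻¹ - (m : ℝ)⁻¹ := sum_Ioc_inv_sq_le_sub (by norm_num) hm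
          _ ≤ 1 := by
              have : (0 : ℝ) ≤ (m : ℝ)⁻¹ := by positivity
              rw [Nat.cast_one, inv_one]
              linarith
    _ = _ := mul_comm _ _

theorem ppb_one (m : ℕ) (hm : 1 ≤ m) : 1 ≤ ∑ d ∈ m.divisors, 1 / (d : ℝ) := by
  have h : (1 : ℕ) ∈ m.divisors := Nat.one_mem_divisors.2 (by omega)
  calc (1 : ℝ) = 1 / ((1 : ℕ) : ℝ) := by norm_num
    _ ≤ _ := Finset.single_le_sum (f := fun d : ℕ => 1 / (d : ℝ))
        (fun d _ => by positivity) h

theorem st_PPB (hS : Pool.Agent.Helper17.SO.ST_SAP) (hM : Pool.Agent.Helper17.SO.ST_MER) :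
    ST_PPB := by
  classical
  obtain ⟨b, CS, hb, hCS0, hCS⟩ := hS
  obtain ⟨CM, hCM0, hCM⟩ := hM
  obtain ⟨E, hE⟩ : ∃ E, E = CS * Real.exp (2 * (CM + 1)) := ⟨_, rfl⟩
  have hE0 : 0 < E := by rw [hE]; exact mul_pos hCS0 (Real.exp_pos _)
  have hl2 : 0 < Real.log 2 := Real.log_pos (by norm_num)
  have hb0 : (1 : ℝ) ≤ b := by exact_mod_cast hb
  refine ⟨(2 * b) ^ 2 + 2 * E * (4 * b) ^ 2 * Real.exp 1, by positivity, ?_⟩
  intro i m hi hm
  have hi0 : (0 : ℝ) < i := by exact_mod_cast hi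
  have h2i : (0 : ℝ) < (2 : ℝ) ^ i := by positivity
  have hσ := ppb_one m hm
  obtain ⟨σ, hσd⟩ : ∃ σ : ℝ, σ = ∑ d ∈ m.divisors, 1 / (d : ℝ) := ⟨_, rfl⟩
  rw [← hσd] at hσ ⊢
  have hC1 : (0 : ℝ) ≤ (2 * b) ^ 2 := by positivity
  have hC2 : (0 : ℝ) ≤ 2 * E * (4 * b) ^ 2 * Real.exp 1 := by positivity
  obtain ⟨S, hSdef⟩ : ∃ S : Finset ℕ, S = (PB 1 i).filter fun p => p + m ∈ PB 1 i := ⟨_, rfl⟩
  rw [← hSdef]
  have hmem : ∀ p ∈ S, (2 ^ i < p ∧ p ≤ 2 ^ (i + 1) ∧ p.Prime) ∧ (p + m).Prime := by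
    intro p hp
    rw [hSdef, mem_filter] at hp
    obtain ⟨h1, h2⟩ := hp
    unfold PB at h1 h2
    simp only [mem_filter, mem_Ioc] at h1 h2
    exact ⟨⟨h1.1.1, h1.1.2, h1.2.1⟩, h2.2.1⟩
  rcases lt_or_ge i (2 * b) with hsmall | hbig
  · -- bounded `i`
    have h1 : (S.card : ℝ) ≤ 2 ^ i := by
      have h : S.card ≤ 2 ^ i := by
        calc S.card ≤ (Ioc (2 ^ i) (2 ^ (i + 1))).card := by
              refine card_le_card fun p hp => ?_
              rw [mem_Ioc]
              exact ⟨(hmem p hp).1.1, (hmem p hp).1.2.1⟩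
          _ ≤ 2 ^ i := by
              rw [Nat.card_Ioc, pow_succ]
              omega
      exact_mod_cast h
    have h3 : (i : ℝ) ^ 2 ≤ (2 * b) ^ 2 := by
      have : (i : ℝ) ≤ 2 * b := by exact_mod_cast hsmall.le
      exact pow_le_pow_left₀ hi0.le this 2
    calc (S.card : ℝ) ≤ 2 ^ i := h1
      _ = (i : ℝ) ^ 2 * 2 ^ i / (i : ℝ) ^ 2 * 1 := by field_simp
      _ ≤ ((2 * b) ^ 2 + 2 * E * (4 * b) ^ 2 * Real.exp 1) * 2 ^ i / (i : ℝ) ^ 2 * σ := by
          refine mul_le_mul ?_ hσ (by norm_num) (by positivity)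
          refine div_le_div_of_nonneg_right ?_ (by positivity)
          exact mul_le_mul_of_nonneg_right (by linarith) h2i.le
  · -- the sieve
    obtain ⟨e, he⟩ : ∃ e, e = i / (2 * b) := ⟨_, rfl⟩
    have hb2 : 0 < 2 * b := by omega
    have he1 : 1 ≤ e := by
      rw [he]
      exact (Nat.one_le_div_iff hb2).2 hbig
    have he2 : 2 * b * e ≤ i := by
      rw [he]
      exact Nat.mul_div_le i (2 * b)
    have he3 : i ≤ 4 * b * e := by
      have h1 : i < 2 * b * (e + 1) := by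
        rw [he]
        exact Nat.lt_mul_div_succ i hb2
      have h2 : 2 * b ≤ 2 * b * e := Nat.le_mul_of_pos_right _ he1
      have h3 : 2 * b * (e + 1) = 2 * b * e + 2 * b := by ring
      have h4 : 4 * b * e = 2 * b * e + 2 * b * e := by ring
      omega
    have hei : e ≤ i := le_trans (Nat.le_mul_of_pos_left e hb2) he2
    obtain ⟨z, hz⟩ : ∃ z, z = 2 ^ e := ⟨_, rfl⟩
    have hz2 : 2 ≤ z := by
      rw [hz]
      calc 2 = 2 ^ 1 := by norm_num
        _ ≤ 2 ^ e := Nat.pow_le_pow_right (by norm_num) he1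
    have hzi : z ≤ 2 ^ i := by
      rw [hz]
      exact Nat.pow_le_pow_right (by norm_num) hei
    have hzQ : z ^ b * 1 ≤ 2 ^ (i + 1) := by
      rw [mul_one, hz, ← pow_mul]
      refine Nat.pow_le_pow_right (by norm_num) ?_
      nlinarith
    have hlz : 0 < Real.log z := Real.log_pos (by exact_mod_cast hz2)
    have hlz2 : (i : ℝ) * Real.log 2 ≤ 4 * b * Real.log z := by
      have h1 : Real.log z = e * Real.log 2 := by
        rw [hz, Nat.cast_pow, Real.log_pow]
        norm_num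
      have h2 : (i : ℝ) ≤ 4 * b * e := by exact_mod_cast he3
      rw [h1]
      nlinarith
    -- the sum over the sieving primes
    have hsum := btp_sum CM hCM z 1 hz2 (le_refl _)
    rw [Nat.primeFactors_one, Finset.sum_empty, sub_zero] at hsum
    have hsum' : LL 2 z - CM - 1 ≤ ∑ l ∈ Pool.Agent.Helper17.SO.PP 6 z, 1 / (l : ℝ) :=
      hsum.trans (Finset.sum_le_sum_of_subset_of_nonneg (filter_subset _ _)
        fun l _ _ => by positivity)
    have hΩ : ∀ l ∈ Pool.Agent.Helper17.SO.PP 6 z,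
        (2 : ℝ) / l - (if l ∣ m then 1 / (l : ℝ) else 0) ≤
          ((({0, -(m : ZMod l)} : Finset (ZMod l)).card : ℝ) / l) := by
      intro l hl
      have hl' := btp_mem.1 hl
      have hl0 : (0 : ℝ) < l := by exact_mod_cast hl'.2.pos
      by_cases h : l ∣ m
      · rw [if_pos h]
        have h1 : (1 : ℝ) ≤ (({0, -(m : ZMod l)} : Finset (ZMod l)).card : ℝ) := by
          have h2 : 0 < (({0, -(m : ZMod l)} : Finset (ZMod l)).card) :=
            Finset.card_pos.2 ⟨0, by simp⟩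
          exact_mod_cast h2
        calc (2 : ℝ) / l - 1 / l = 1 / l := by ring
          _ ≤ _ := div_le_div_of_nonneg_right h1 hl0.le
      · rw [if_neg h, sub_zero]
        have h1 : (0 : ZMod l) ≠ -(m : ZMod l) := by
          intro h2
          apply h
          rw [← ZMod.natCast_eq_zero_iff]
          rw [← neg_eq_zero]
          exact h2.symm
        rw [Finset.card_pair h1]
        push_cast
        exact le_refl _
    have hsumΩ : 2 * (LL 2 z - CM - 1) - ∑ l ∈ m.primeFactors, 1 / (l : ℝ) ≤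
        ∑ l ∈ Pool.Agent.Helper17.SO.PP 6 z,
          ((({0, -(m : ZMod l)} : Finset (ZMod l)).card : ℝ) / l) := by
      have h1 := Finset.sum_le_sum hΩ
      rw [Finset.sum_sub_distrib, ← Finset.sum_filter] at h1
      have h2 : ∑ l ∈ Pool.Agent.Helper17.SO.PP 6 z, (2 : ℝ) / l =
          2 * ∑ l ∈ Pool.Agent.Helper17.SO.PP 6 z, 1 / (l : ℝ) := by
        rw [Finset.mul_sum]
        exact Finset.sum_congr rfl fun l _ => by ring
      have h3 : ∑ l ∈ (Pool.Agent.Helper17.SO.PP 6 z).filter (fun l => l ∣ m), 1 / (l : ℝ) ≤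
          ∑ l ∈ m.primeFactors, 1 / (l : ℝ) := by
        refine sum_le_sum_of_subset_of_nonneg ?_ fun l _ _ => by positivity
        intro l hl
        rw [mem_filter, btp_mem] at hl
        exact Nat.mem_primeFactors.2 ⟨hl.1.2, hl.2, by omega⟩
      rw [h2] at h1
      linarith
    have hcard := hCS z (2 ^ (i + 1)) 1 0 (Pool.Agent.Helper17.SO.PP 6 z)
      (fun l => {0, -(m : ZMod l)}) hz2 (le_refl _) hzQ
      (by
        intro l hl
        rw [btp_mem] at hl
        refine ⟨hl.2, by omega, hl.1.2, ?_, ?_⟩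
        · exact (Finset.card_le_two).trans (by norm_num)
        · intro h
          exact hl.2.one_lt.ne' (Nat.dvd_one.1 h))
      S
      (by
        intro p hp
        obtain ⟨⟨h1, h2, h3⟩, h4⟩ := hmem p hp
        refine ⟨h2, by rw [Nat.mod_one, Nat.mod_one], ?_⟩
        intro l hl h0
        rw [btp_mem] at hl
        have h5 := hl.1.2
        rw [mem_insert, mem_singleton] at h0
        rcases h0 with h0 | h0
        · rw [ZMod.natCast_eq_zero_iff] at h0
          have h6 := (Nat.prime_dvd_prime_iff_eq hl.2 h3).1 h0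
          omega
        · have h6 : ((p + m : ℕ) : ZMod l) = 0 := by
            push_cast
            rw [h0]
            ring
          rw [ZMod.natCast_eq_zero_iff] at h6
          have h7 := (Nat.prime_dvd_prime_iff_eq hl.2 h4).1 h6
          omega)
    have hexp : Real.exp (-∑ l ∈ Pool.Agent.Helper17.SO.PP 6 z,
          ((({0, -(m : ZMod l)} : Finset (ZMod l)).card : ℝ) / l)) ≤
        Real.exp (2 * (CM + 1)) * (4 * b / i) ^ 2 * (Real.exp 1 * σ) := by
      calc _ ≤ Real.exp (2 * (CM + 1) + (-LL 2 z + -LL 2 z) +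
            ∑ l ∈ m.primeFactors, 1 / (l : ℝ)) :=
            Real.exp_le_exp.2 (by linarith)
        _ = Real.exp (2 * (CM + 1)) * (Real.exp (-LL 2 z) * Real.exp (-LL 2 z)) *
            Real.exp (∑ l ∈ m.primeFactors, 1 / (l : ℝ)) := by
            rw [Real.exp_add, Real.exp_add, Real.exp_add]
        _ ≤ _ := by
            have hL : Real.exp (-LL 2 z) ≤ 4 * b / i := by
              unfold LL
              rw [Real.exp_neg, Real.exp_log (by positivity), inv_div,
                div_le_div_iff₀ hlz hi0, Nat.cast_ofNat, mul_comm (Real.log 2) (i : ℝ)]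
              exact hlz2
            refine mul_le_mul (mul_le_mul_of_nonneg_left ?_ (Real.exp_pos _).le) ?_
              (Real.exp_pos _).le (by positivity)
            · rw [sq]
              exact mul_le_mul hL hL (Real.exp_pos _).le (by positivity)
            · rw [hσd]
              exact ppb_exp m hm
    have h3 : (S.card : ℝ) ≤ CS * (((2 ^ (i + 1) : ℕ) : ℝ) / ((1 : ℕ) : ℝ)) *
        (Real.exp (2 * (CM + 1)) * (4 * b / i) ^ 2 * (Real.exp 1 * σ)) :=
      hcard.trans (mul_le_mul_of_nonneg_left hexp (by positivity))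
    calc (S.card : ℝ) ≤ CS * (((2 ^ (i + 1) : ℕ) : ℝ) / ((1 : ℕ) : ℝ)) *
        (Real.exp (2 * (CM + 1)) * (4 * b / i) ^ 2 * (Real.exp 1 * σ)) := h3
      _ = (2 * E * (4 * b) ^ 2 * Real.exp 1) * 2 ^ i / (i : ℝ) ^ 2 * σ := by
          rw [hE]
          push_cast
          rw [pow_succ]
          field_simp
      _ ≤ _ := by
          refine mul_le_mul_of_nonneg_right ?_ (by linarith)
          refine div_le_div_of_nonneg_right (mul_le_mul_of_nonneg_right ?_ h2i.le) (by positivity)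
          linarith

end Pool.Agent.Helper16.BZ
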