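import Pool.Agent.Helper16.BZ.Stmts

set_option autoImplicit false

open Finset Filter MeasureTheory Topology
open scoped ComplexConjugate InnerProductSpace

namespace Pool.Agent.Helper16.BZ

open Pool.Agent.Helper16.AZ (T E Op mm Eig PP ST_VDH ST_MSR ST_MRF ST_FPV)
open Pool.Agent.Helper16.MD (MS PB Am RW Rich)
open UnitAddTorus (mFourier)

/-- the neighbourhoods of the set `ata2_Z` -/
def ata2_D (q₀ : ℕ) (C : ℝ) (i : ℕ) : Set (ℂ × ℂ) :=
  ⋃ q ∈ Finset.Icc 1 q₀, {z | ‖(z.1 * conj z.2) ^ q - 1‖ ≤ C / 2 ^ i}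

/-- the pairs whose quotient is a root of unity of small order -/
def ata2_Z (q₀ : ℕ) : Set (ℂ × ℂ) :=
  ⋃ q ∈ Finset.Icc 1 q₀, {z | (z.1 * conj z.2) ^ q = 1}

theorem ata2_cont : Continuous (fun z : ℂ × ℂ => z.1 * conj z.2) :=
  continuous_fst.mul (Complex.continuous_conj.comp continuous_snd)

theorem ata2_meas (q₀ : ℕ) (C : ℝ) (i : ℕ) : MeasurableSet (ata2_D q₀ C i) := by
  unfold ata2_D
  apply Finset.measurableSet_biUnion
  intro q _
  apply IsClosed.measurableSet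
  exact isClosed_le (((ata2_cont.pow q).sub continuous_const).norm) continuous_const

theorem ata2_measZ (q₀ : ℕ) : MeasurableSet (ata2_Z q₀) := by
  unfold ata2_Z
  apply Finset.measurableSet_biUnion
  intro q _
  apply IsClosed.measurableSet
  exact isClosed_eq (ata2_cont.pow q) continuous_const

theorem ata2_norm {z : ℂ × ℂ} (h1 : ‖z.1‖ = 1) (h2 : ‖z.2‖ = 1) : ‖z.1 * conj z.2‖ = 1 := by
  rw [norm_mul, h1, one_mul, RCLike.norm_conj, h2]

theorem ata2_sum_le {w : ℂ} (hw : ‖w‖ = 1) (H p : ℕ) :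
    ‖∑ h ∈ range H, w ^ (p * h)‖ ^ 2 ≤ (H : ℝ) ^ 2 := by
  have h1 : ‖∑ h ∈ range H, w ^ (p * h)‖ ≤ H := by
    calc _ ≤ ∑ h ∈ range H, ‖w ^ (p * h)‖ := norm_sum_le _ _
      _ = ∑ h ∈ range H, (1 : ℝ) := by
        refine Finset.sum_congr rfl fun h _ => ?_
        rw [norm_pow, hw, one_pow]
      _ = H := by simp
  exact pow_le_pow_left₀ (norm_nonneg _) h1 2

theorem ata2_ae (ν : Measure ℂ) [IsFiniteMeasure ν] (hν : ∀ᵐ z ∂ν, ‖z‖ = 1) :
    ∀ᵐ z ∂(ν.prod ν), ‖z.1‖ = 1 ∧ ‖z.2‖ = 1 := by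
  have h1 := (Measure.quasiMeasurePreserving_fst (μ := ν) (ν := ν)).ae hν
  have h2 := (Measure.quasiMeasurePreserving_snd (μ := ν) (ν := ν)).ae hν
  filter_upwards [h1, h2] with z a b
  exact ⟨a, b⟩

theorem ata2_int (ν : Measure ℂ) [IsFiniteMeasure ν] (hν : ∀ᵐ z ∂ν, ‖z‖ = 1) (H p : ℕ) :
    Integrable (fun z : ℂ × ℂ => ‖∑ h ∈ range H, (z.1 * conj z.2) ^ (p * h)‖ ^ 2)
      (ν.prod ν) := by
  refine Integrable.of_bound ?_ ((H : ℝ) ^ 2) ?_
  · refine Continuous.aestronglyMeasurable ?_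
    refine Continuous.pow (Continuous.norm ?_) 2
    exact continuous_finsetSum _ fun h _ => ata2_cont.pow _
  · filter_upwards [ata2_ae ν hν] with z hz
    rw [Real.norm_of_nonneg (sq_nonneg _)]
    exact ata2_sum_le (ata2_norm hz.1 hz.2) H p

theorem ata2_bound (κ : ℝ) (hκ : 0 < κ) (H q₀ : ℕ) (C : ℝ) (i : ℕ)
    (h1 : ∀ z : ℂ, ‖z‖ = 1 → κ / 32 * (PB 1 i).card * (H : ℝ) ^ 2 ≤
      ∑ p ∈ PB 1 i, ‖∑ h ∈ range H, z ^ (p * h)‖ ^ 2 →
      ∃ q : ℕ, 1 ≤ q ∧ q ≤ q₀ ∧ ‖z ^ q - 1‖ ≤ C / 2 ^ i)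
    (ν : Measure ℂ) [IsFiniteMeasure ν] (hm : (ν.prod ν).real Set.univ ≤ 16)
    (hν : ∀ᵐ z ∂ν, ‖z‖ = 1) :
    ∑ p ∈ PB 1 i, ∫ z : ℂ × ℂ,
      ‖∑ h ∈ range H, (z.1 * conj z.2) ^ (p * h)‖ ^ 2 ∂(ν.prod ν) ≤
    κ / 2 * ((PB 1 i).card * (H : ℝ) ^ 2) +
      (ν.prod ν).real (ata2_D q₀ C i) * ((PB 1 i).card * (H : ℝ) ^ 2) := by
  rw [← integral_finsetSum _ fun p _ => ata2_int ν hν _ p]
  have hB : (0 : ℝ) ≤ (PB 1 i).card * (H : ℝ) ^ 2 := by positivity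
  have hc0 : 0 ≤ κ / 32 * ((PB 1 i).card * (H : ℝ) ^ 2) := by positivity
  have e1 : ∀ᵐ z ∂(ν.prod ν), ∑ p ∈ PB 1 i,
      ‖∑ h ∈ range H, (z.1 * conj z.2) ^ (p * h)‖ ^ 2 ≤
      κ / 32 * ((PB 1 i).card * (H : ℝ) ^ 2) +
        (ata2_D q₀ C i).indicator (fun _ => (PB 1 i).card * (H : ℝ) ^ 2) z := by
    filter_upwards [ata2_ae ν hν] with z hz
    have hw := ata2_norm hz.1 hz.2
    by_cases hzD : z ∈ ata2_D q₀ C i
    · rw [Set.indicator_of_mem hzD]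
      have h3 : ∑ p ∈ PB 1 i, ‖∑ h ∈ range H, (z.1 * conj z.2) ^ (p * h)‖ ^ 2 ≤
          (PB 1 i).card * (H : ℝ) ^ 2 := by
        rw [← nsmul_eq_mul]
        exact Finset.sum_le_card_nsmul _ _ _ fun p _ => ata2_sum_le hw _ p
      linarith
    · rw [Set.indicator_of_notMem hzD, add_zero]
      by_contra hlt
      push Not at hlt
      obtain ⟨q, hq1, hq2, hq3⟩ := h1 _ hw (by rw [mul_assoc]; exact hlt.le)
      apply hzD
      unfold ata2_D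
      rw [Set.mem_iUnion₂]
      exact ⟨q, Finset.mem_Icc.2 ⟨hq1, hq2⟩, hq3⟩
  have i1 : Integrable (fun z : ℂ × ℂ => ∑ p ∈ PB 1 i,
      ‖∑ h ∈ range H, (z.1 * conj z.2) ^ (p * h)‖ ^ 2) (ν.prod ν) :=
    integrable_finsetSum _ fun p _ => ata2_int ν hν _ p
  have i2 : Integrable ((ata2_D q₀ C i).indicator
      (fun _ : ℂ × ℂ => (PB 1 i).card * (H : ℝ) ^ 2)) (ν.prod ν) :=
    (integrable_const _).indicator (ata2_meas q₀ C i)
  refine (integral_mono_ae i1 ((integrable_const _).add i2) e1).trans ?_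
  simp only [Pi.add_apply]
  rw [integral_add (integrable_const _) i2, integral_const,
    integral_indicator_const _ (ata2_meas q₀ C i), smul_eq_mul, smul_eq_mul]
  have h4 : (ν.prod ν).real Set.univ * (κ / 32 * ((PB 1 i).card * (H : ℝ) ^ 2)) ≤
      16 * (κ / 32 * ((PB 1 i).card * (H : ℝ) ^ 2)) :=
    mul_le_mul_of_nonneg_right hm hc0
  linarith

/-- the measure of the set of points related to `x` -/
theorem ata2_slice (ν : Measure ℂ) (q₀ : ℕ) (c : ENNReal) (hc : ∀ x, ν {x} ≤ c) (x : ℂ) :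
    ν (Prod.mk x ⁻¹' (ata2_Z q₀)) ≤ (q₀ * q₀ : ℕ) * c := by
  classical
  have h1 : Prod.mk x ⁻¹' (ata2_Z q₀) ⊆
      ⋃ q ∈ Finset.Icc 1 q₀, ⋃ ζ ∈ (Polynomial.nthRoots q (1 : ℂ)).toFinset,
        {conj (ζ * x⁻¹)} := by
    intro y hy
    rw [Set.mem_preimage, ata2_Z, Set.mem_iUnion₂] at hy
    obtain ⟨q, hq, hy⟩ := hy
    have hy' : (x * conj y) ^ q = 1 := hy
    have hq0 : 0 < q := (Finset.mem_Icc.1 hq).1
    have hx : x ≠ 0 := by
      intro h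
      rw [h, zero_mul, zero_pow hq0.ne'] at hy'
      exact zero_ne_one hy'
    rw [Set.mem_iUnion₂]
    refine ⟨q, hq, ?_⟩
    rw [Set.mem_iUnion₂]
    refine ⟨x * conj y, ?_, ?_⟩
    · rw [Multiset.mem_toFinset, Polynomial.mem_nthRoots hq0]
      exact hy'
    · rw [Set.mem_singleton_iff]
      have h2 : x * conj y * x⁻¹ = conj y := by
        field_simp
      rw [h2, Complex.conj_conj]
  refine (measure_mono h1).trans ?_
  refine (measure_biUnion_finset_le _ _).trans ?_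
  have h2 : ∀ q ∈ Finset.Icc 1 q₀,
      ν (⋃ ζ ∈ (Polynomial.nthRoots q (1 : ℂ)).toFinset, {conj (ζ * x⁻¹)}) ≤ (q₀ : ℕ) * c := by
    intro q hq
    refine (measure_biUnion_finset_le _ _).trans ?_
    have h3 : ∑ ζ ∈ (Polynomial.nthRoots q (1 : ℂ)).toFinset, ν {conj (ζ * x⁻¹)} ≤
        ∑ ζ ∈ (Polynomial.nthRoots q (1 : ℂ)).toFinset, c :=
      Finset.sum_le_sum fun ζ _ => hc _
    refine h3.trans ?_
    rw [Finset.sum_const, nsmul_eq_mul]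
    have h4 : (Polynomial.nthRoots q (1 : ℂ)).toFinset.card ≤ q₀ :=
      (Multiset.toFinset_card_le _).trans
        ((Polynomial.card_nthRoots q (1 : ℂ)).trans (Finset.mem_Icc.1 hq).2)
    gcongr
  refine (Finset.sum_le_sum h2).trans ?_
  rw [Finset.sum_const, nsmul_eq_mul, Nat.card_Icc, Nat.add_sub_cancel, ← mul_assoc]
  push_cast
  exact le_refl _

theorem ata2_Zle (ν : Measure ℂ) [IsFiniteMeasure ν] (q₀ : ℕ) (c : ENNReal)
    (hm : ν Set.univ ≤ 4) (hc : ∀ x, ν {x} ≤ c) :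
    (ν.prod ν) (ata2_Z q₀) ≤ (q₀ * q₀ : ℕ) * c * 4 := by
  rw [Measure.prod_apply (ata2_measZ q₀)]
  calc ∫⁻ x, ν (Prod.mk x ⁻¹' (ata2_Z q₀)) ∂ν ≤ ∫⁻ _, (q₀ * q₀ : ℕ) * c ∂ν :=
        lintegral_mono fun x => ata2_slice ν q₀ c hc x
    _ = (q₀ * q₀ : ℕ) * c * ν Set.univ := by rw [lintegral_const]
    _ ≤ _ := mul_le_mul_right hm _

theorem ata2_inter {q₀ : ℕ} {C : ℝ} : (⋂ i, ata2_D q₀ C i) ⊆ ata2_Z q₀ := by
  intro z hz
  rw [Set.mem_iInter] at hz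
  by_contra hcon
  have h0 : ∀ q ∈ Finset.Icc 1 q₀, 0 < ‖(z.1 * conj z.2) ^ q - 1‖ := by
    intro q hq
    rw [norm_pos_iff]
    intro h
    apply hcon
    unfold ata2_Z
    rw [Set.mem_iUnion₂]
    exact ⟨q, hq, sub_eq_zero.1 h⟩
  have h1 : Tendsto (fun i : ℕ => C / 2 ^ i) atTop (𝓝 0) := by
    have h2 : Tendsto (fun i : ℕ => C * (1 / 2 : ℝ) ^ i) atTop (𝓝 (C * 0)) :=
      (tendsto_pow_atTop_nhds_zero_of_lt_one (by norm_num) (by norm_num)).const_mul _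
    rw [mul_zero] at h2
    refine h2.congr fun i => ?_
    rw [one_div, inv_pow]
    field_simp
  have h2 : ∀ᶠ i : ℕ in atTop, ∀ q ∈ Finset.Icc 1 q₀, C / 2 ^ i < ‖(z.1 * conj z.2) ^ q - 1‖ := by
    rw [Filter.eventually_all_finset]
    intro q hq
    exact h1.eventually_lt_const (h0 q hq)
  obtain ⟨i, hi⟩ := h2.exists
  have h3 := hz i
  unfold ata2_D at h3
  rw [Set.mem_iUnion₂] at h3
  obtain ⟨q, hq, h4⟩ := h3
  have h5 : ‖(z.1 * conj z.2) ^ q - 1‖ ≤ C / 2 ^ i := h4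
  exact absurd (hi q hq) (not_lt.2 h5)

theorem ata2_anti {q₀ : ℕ} {C : ℝ} (hC : 0 < C) : Antitone (ata2_D q₀ C) := by
  intro i j hij z hz
  unfold ata2_D at hz ⊢
  rw [Set.mem_iUnion₂] at hz ⊢
  obtain ⟨q, hq, h4⟩ := hz
  refine ⟨q, hq, ?_⟩
  have h5 : ‖(z.1 * conj z.2) ^ q - 1‖ ≤ C / 2 ^ j := h4
  refine le_trans h5 ?_
  exact div_le_div_of_nonneg_left hC.le (by positivity) (pow_le_pow_right₀ (by norm_num) hij)

theorem st_ATA2 (h1 : ST_PES) : ST_ATA2 := by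
  intro κ hκ
  obtain ⟨H, q₀, I₀, C, hH, hq₀, hC, hP⟩ := h1 (κ / 32) (by positivity)
  have hq0 : (0 : ℝ) < q₀ := by exact_mod_cast hq₀
  refine ⟨H, κ / (64 * (q₀ : ℝ) ^ 2), hH, by positivity, ?_⟩
  intro ν _ hm hν hfr
  by_contra hcon
  push Not at hcon
  have hm1 : ν Set.univ ≤ 4 := by
    rw [← ENNReal.ofReal_toReal (measure_ne_top ν Set.univ)]
    refine le_trans (ENNReal.ofReal_le_ofReal hm) ?_
    norm_num
  have hpt : ∀ x, ν {x} ≤ ENNReal.ofReal (κ / (64 * (q₀ : ℝ) ^ 2)) := by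
    intro x
    by_cases hx : ‖x‖ = 1
    · rw [← ENNReal.ofReal_toReal (measure_ne_top ν {x})]
      exact ENNReal.ofReal_le_ofReal (hcon x hx).le
    · have h2 : ν {x} = 0 := by
        refine measure_mono_null ?_ (ae_iff.1 hν)
        intro y hy
        rw [Set.mem_singleton_iff] at hy
        rw [hy]
        exact hx
      rw [h2]
      exact zero_le
  have hprod1 : (ν.prod ν) Set.univ ≤ 16 := by
    rw [← Set.univ_prod_univ, Measure.prod_prod]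
    calc ν Set.univ * ν Set.univ ≤ 4 * 4 := mul_le_mul' hm1 hm1
      _ = 16 := by norm_num
  have hprodr : (ν.prod ν).real Set.univ ≤ 16 := by
    rw [Measure.real]
    have := ENNReal.toReal_mono (by norm_num) hprod1
    simpa using this
  have hlim : Tendsto (fun i => (ν.prod ν) (ata2_D q₀ C i)) atTop
      (𝓝 ((ν.prod ν) (⋂ i, ata2_D q₀ C i))) :=
    tendsto_measure_iInter_atTop (fun i => (ata2_meas q₀ C i).nullMeasurableSet)
      (ata2_anti hC) ⟨0, measure_ne_top _ _⟩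
  have hL : (ν.prod ν) (⋂ i, ata2_D q₀ C i) ≤ ENNReal.ofReal (κ / 16) := by
    refine le_trans (measure_mono ata2_inter) ?_
    refine le_trans (ata2_Zle ν q₀ _ hm1 hpt) ?_
    have h2 : ((q₀ * q₀ : ℕ) : ENNReal) = ENNReal.ofReal ((q₀ : ℝ) * q₀) := by
      rw [← ENNReal.ofReal_natCast]
      push_cast
      rfl
    have h3 : (4 : ENNReal) = ENNReal.ofReal 4 := by norm_num
    rw [h2, h3, ← ENNReal.ofReal_mul (by positivity), ← ENNReal.ofReal_mul (by positivity)]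
    apply ENNReal.ofReal_le_ofReal
    apply le_of_eq
    field_simp
    norm_num
  have hL2 : (ν.prod ν) (⋂ i, ata2_D q₀ C i) < ENNReal.ofReal (κ / 4) := by
    refine lt_of_le_of_lt hL ?_
    rw [ENNReal.ofReal_lt_ofReal_iff (by positivity)]
    linarith
  have hev1 : ∀ᶠ i in atTop, (ν.prod ν) (ata2_D q₀ C i) < ENNReal.ofReal (κ / 4) :=
    hlim.eventually_lt_const hL2
  obtain ⟨i, ⟨hR, hi⟩, hi1, hi2⟩ :=
    (hfr.and_eventually (hev1.and (eventually_ge_atTop I₀))).exists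
  have hb := ata2_bound κ hκ H q₀ C i (fun z hz hle => hP i z hi2 hR hz hle) ν hprodr hν
  have hmi : (ν.prod ν).real (ata2_D q₀ C i) ≤ κ / 4 := by
    rw [Measure.real]
    exact ENNReal.toReal_le_of_le_ofReal (by positivity) hi1.le
  have hB : (0 : ℝ) ≤ (PB 1 i).card * (H : ℝ) ^ 2 := by positivity
  have h5 : (ν.prod ν).real (ata2_D q₀ C i) * ((PB 1 i).card * (H : ℝ) ^ 2) ≤
      κ / 4 * ((PB 1 i).card * (H : ℝ) ^ 2) :=
    mul_le_mul_of_nonneg_right hmi hB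
  have h6 : κ * ((PB 1 i).card * (H : ℝ) ^ 2) < 3 / 4 * κ * ((PB 1 i).card * (H : ℝ) ^ 2) := by
    calc κ * ((PB 1 i).card * (H : ℝ) ^ 2) = κ * (PB 1 i).card * (H : ℝ) ^ 2 := by ring
      _ < _ := hi
      _ ≤ _ := hb
      _ ≤ _ := by linarith
  have h7 : κ < 3 / 4 * κ := lt_of_mul_lt_mul_right h6 hB
  linarith

end Pool.Agent.Helper16.BZ
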